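import Pool.Agent.Helper24.HW.Stmts

set_option autoImplicit false

namespace Pool.Agent.Helper52.HW

open Equiv Equiv.Perm Pool.Agent.Helper24.HW Pool.Agent.Helper24.HWPub Pool.Agent.Helper98.Gn

section

variable {T : Type} [Fintype T] [DecidableEq T] {N : ℕ} [NeZero N] {ng ρ : Perm T}
  {cur : T → ZMod N} (h : IsCG N ng ρ cur)

theorem dfc_end (g : ZMod N) (t : T) (e : ρ t = t) :
    ((der h).σ * (der h).α) (Sum.inl (g, t)) = Sum.inr ((g + cur t, ⟨t, e⟩), false) := by
  have e' : ρ (ng (ng t)) = ng (ng t) := by rw [h.ng2]; exact e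
  have h1 : ((der h).σ * (der h).α) (Sum.inl (g, t)) =
      (der h).σ (Sum.inl (g + cur t, ng t)) := rfl
  rw [h1]
  change (if e : ρ (ng (ng t)) = ng (ng t) then
      (Sum.inr ((g + cur t, ⟨ng (ng t), e⟩), false) :
        (ZMod N × T) ⊕ ((ZMod N × {t // ρ t = t}) × Bool))
    else Sum.inl (g + cur t, ρ (ng (ng t)))) = _
  rw [dif_pos e']
  simp only [h.ng2]

theorem dfc_int (g : ZMod N) (t : T) (e : ρ t ≠ t) :
    ((der h).σ * (der h).α) (Sum.inl (g, t)) = Sum.inl (g + cur t, ρ t) := by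
  have e' : ρ (ng (ng t)) ≠ ng (ng t) := by rw [h.ng2]; exact e
  have h1 : ((der h).σ * (der h).α) (Sum.inl (g, t)) =
      (der h).σ (Sum.inl (g + cur t, ng t)) := rfl
  rw [h1]
  change (if e : ρ (ng (ng t)) = ng (ng t) then
      (Sum.inr ((g + cur t, ⟨ng (ng t), e⟩), false) :
        (ZMod N × T) ⊕ ((ZMod N × {t // ρ t = t}) × Bool))
    else Sum.inl (g + cur t, ρ (ng (ng t)))) = _
  rw [dif_neg e']
  simp only [h.ng2]

theorem dfc_f (g : ZMod N) (s : {t // ρ t = t}) :
    ((der h).σ * (der h).α) (Sum.inr ((g, s), false)) = Sum.inr ((g - cur s.1, s), true) := rfl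

theorem dfc_t (g : ZMod N) (s : {t // ρ t = t}) :
    ((der h).σ * (der h).α) (Sum.inr ((g, s), true)) = Sum.inl (g, s.1) := rfl

omit [Fintype T] [DecidableEq T] in
include h in
theorem dfc_card : Nat.card T = N - 1 := by
  have e : T ≃ {z : ZMod N // z ≠ 0} := by
    refine Equiv.ofBijective (fun t => ⟨cur t, h.nz t⟩) ⟨fun a b hab => h.inj ?_, fun z => ?_⟩
    · exact congrArg Subtype.val hab
    · obtain ⟨t, ht⟩ := h.sur z.1 z.2
      exact ⟨t, Subtype.ext ht⟩
  rw [Nat.card_congr e, Nat.card_eq_fintype_card]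
  have h1 := Fintype.card_subtype_compl (fun z : ZMod N => z = 0)
  rw [Fintype.card_subtype_eq, ZMod.card] at h1
  exact h1

end

theorem DFC (hcub : ST_CUB) : ST_DFC := by
  intro T _ _ N _ ng ρ cur h
  refine ⟨?_, ?_⟩
  · refine (hcub (der h).D ((der h).σ * (der h).α)).2 ?_ ?_
    · rintro (⟨g, t⟩ | ⟨⟨g, s⟩, b⟩)
      · by_cases e : ρ t = t
        · rw [dfc_end h g t e, dfc_f, dfc_t, add_sub_cancel_right]
        · have e2 : ρ (ρ t) ≠ ρ t := fun hc => e (ρ.injective hc)
          have e3 : ρ (ρ (ρ t)) ≠ ρ (ρ t) := fun hc => e2 (ρ.injective hc)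
          rw [dfc_int h g t e, dfc_int h _ _ e2, dfc_int h _ _ e3]
          obtain ⟨h1, h2⟩ := h.kcl t e
          rw [h1, add_assoc, add_assoc, ← add_assoc (cur t), h2, add_zero]
      · cases b
        · rw [dfc_f, dfc_t, dfc_end h _ _ s.2, sub_add_cancel]
        · rw [dfc_t, dfc_end h _ _ s.2, dfc_f, add_sub_cancel_right]
    · rintro (⟨g, t⟩ | ⟨⟨g, s⟩, b⟩)
      · by_cases e : ρ t = t
        · rw [dfc_end h g t e]
          exact fun hc => Sum.inr_ne_inl hc
        · rw [dfc_int h g t e]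
          intro hc
          exact e (Prod.ext_iff.1 (Sum.inl.inj hc)).2
      · cases b
        · rw [dfc_f]
          intro hc
          have h1 := (Prod.ext_iff.1 (Sum.inr.inj hc)).2
          simp at h1
        · rw [dfc_t]
          exact fun hc => Sum.inl_ne_inr hc
  · change Nat.card ((ZMod N × T) ⊕ ((ZMod N × {t // ρ t = t}) × Bool)) = _
    rw [Nat.card_sum, Nat.card_prod, Nat.card_prod, Nat.card_prod, Nat.card_zmod, dfc_card h,
      Nat.card_eq_fintype_card (α := Bool), Fintype.card_bool]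
    ring

end Pool.Agent.Helper52.HW
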